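import Pool.Agent.WIR.StmtsE

/-!
# WIR, block E, row COD: the coding of the preimages of the 3x+1 map by words (helper9)
-/

set_option autoImplicit false

namespace Pool.Agent.WIR.H9

theorem cod (h1 : CdtStmt) (h2 : CdrStmt) : CodStmt := by
  intro M
  induction M with
  | zero =>
    intro l a ha
    rw [(h1 l a ha).1, (h2 l).1]
  | succ M ih =>
    intro l a ha
    cases l with
    | zero =>
      rw [((h1 0 a ha).2 M).1, ih 0 (2 * a) (by omega), (h2 0).2.1, (h2 0).2.1]
    | succ l =>
      rw [((h1 l a ha).2 M).2, (h2 l).2.2 M a ha, ih (l + 1) (2 * a) (by omega)]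
      by_cases h : 3 ∣ 2 * a - 1
      · rw [if_pos h, if_pos h, ih l ((2 * a - 1) / 3)]
        obtain ⟨c, hc⟩ := h
        omega
      · rw [if_neg h, if_neg h]

end Pool.Agent.WIR.H9
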